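import Mathlib

/-! Search certificate: forty points and forty lines of a configuration; no fifteen lines cover all points. -/

namespace Pool.Agent.Helper216_DC

/-- The bit of `V` at position `x`, as a number. -/
def bt (V x : ℕ) : ℕ := Nat.land (Nat.shiftRight V x) 1

/-- One branch: use the line with mask `m`, whose two other points are `x` and `y`. -/
def br (k : ℕ → ℕ → Bool) (V B m x y : ℕ) : Bool :=
  cond (Nat.ble (Nat.add (bt V x) (bt V y)) B)
    (k (Nat.lor V m) (Nat.sub B (Nat.add (bt V x) (bt V y)))) true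

/-- One step of the search: point `p` with its three lines. -/
def stp (p m1 x1 y1 m2 x2 y2 m3 x3 y3 : ℕ) (k : ℕ → ℕ → Bool) (V B : ℕ) : Bool :=
  cond (Nat.beq (bt V p) 1) (k V B)
    (cond (br k V B m1 x1 y1) (cond (br k V B m2 x2 y2) (br k V B m3 x3 y3) false) false)

/-- End of the search: everything is covered. -/
def s40 (_ _ : ℕ) : Bool := false

/-- Search from point 39. -/
def s39 : ℕ → ℕ → Bool := stp 39 575525617664 33 34 652835028992 35 36 962072674304 37 38 s40

/-- Search from point 38. -/
def s38 : ℕ → ℕ → Bool := stp 38 274877972544 6 16 274877916160 10 13 962072674304 37 39 s39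

/-- Search from point 37. -/
def s37 : ℕ → ℕ → Bool := stp 37 141734182912 18 32 137640280064 26 27 962072674304 38 39 s38

/-- Search from point 36. -/
def s36 : ℕ → ℕ → Bool := stp 36 69524783104 28 29 71940702208 30 31 652835028992 35 39 s37

/-- Search from point 35. -/
def s35 : ℕ → ℕ → Bool := stp 35 34359742976 9 12 34364063744 17 22 652835028992 36 39 s36

/-- Search from point 34. -/
def s34 : ℕ → ℕ → Bool := stp 34 17181442048 19 20 23622320128 31 32 575525617664 33 39 s35

/-- Search from point 33. -/
def s33 : ℕ → ℕ → Bool := stp 33 8640266240 24 25 9261023232 27 29 575525617664 34 39 s34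

/-- Search from point 32. -/
def s32 : ℕ → ℕ → Bool := stp 32 4294984704 10 14 141734182912 18 37 23622320128 31 34 s33

/-- Search from point 31. -/
def s31 : ℕ → ℕ → Bool := stp 31 2151680000 11 22 71940702208 30 36 23622320128 32 34 s32

/-- Search from point 30. -/
def s30 : ℕ → ℕ → Bool := stp 30 1076887552 20 21 1149239296 23 26 71940702208 31 36 s31

/-- Search from point 29. -/
def s29 : ℕ → ℕ → Bool := stp 29 537018368 14 17 9261023232 27 33 69524783104 28 36 s30

/-- Search from point 28. -/
def s28 : ℕ → ℕ → Bool := stp 28 268435840 7 8 302055424 16 25 69524783104 29 36 s29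

/-- Search from point 27. -/
def s27 : ℕ → ℕ → Bool := stp 27 134225952 5 13 137640280064 26 37 9261023232 29 33 s28

/-- Search from point 26. -/
def s26 : ℕ → ℕ → Bool := stp 26 100696064 15 25 1149239296 23 30 137640280064 27 37 s27

/-- Search from point 25. -/
def s25 : ℕ → ℕ → Bool := stp 25 100696064 15 26 302055424 16 28 8640266240 24 33 s26

/-- Search from point 24. -/
def s24 : ℕ → ℕ → Bool := stp 24 25165952 7 23 23068672 21 22 8640266240 25 33 s25

/-- Search from point 23. -/
def s23 : ℕ → ℕ → Bool := stp 23 8912898 1 19 25165952 7 24 1149239296 26 30 s24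

/-- Search from point 22. -/
def s22 : ℕ → ℕ → Bool := stp 22 2151680000 11 31 34364063744 17 35 23068672 21 24 s23

/-- Search from point 21. -/
def s21 : ℕ → ℕ → Bool := stp 21 2097424 4 8 1076887552 20 30 23068672 22 24 s22

/-- Search from point 20. -/
def s20 : ℕ → ℕ → Bool := stp 20 1314816 12 18 17181442048 19 34 1076887552 21 30 s21

/-- Search from point 19. -/
def s19 : ℕ → ℕ → Bool := stp 19 8912898 1 23 565248 13 15 17181442048 20 34 s20

/-- Search from point 18. -/
def s18 : ℕ → ℕ → Bool := stp 18 262150 1 2 1314816 12 20 141734182912 32 37 s19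

/-- Search from point 17. -/
def s17 : ℕ → ℕ → Bool := stp 17 196616 3 16 537018368 14 29 34364063744 22 35 s18

/-- Search from point 16. -/
def s16 : ℕ → ℕ → Bool := stp 16 196616 3 17 274877972544 6 38 302055424 25 28 s17

/-- Search from point 15. -/
def s15 : ℕ → ℕ → Bool := stp 15 32788 2 4 565248 13 19 100696064 25 26 s16

/-- Search from point 14. -/
def s14 : ℕ → ℕ → Bool := stp 14 16960 6 9 4294984704 10 32 537018368 17 29 s15

/-- Search from point 13. -/
def s13 : ℕ → ℕ → Bool := stp 13 134225952 5 27 274877916160 10 38 565248 15 19 s14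

/-- Search from point 12. -/
def s12 : ℕ → ℕ → Bool := stp 12 5121 0 10 34359742976 9 35 1314816 18 20 s13

/-- Search from point 11. -/
def s11 : ℕ → ℕ → Bool := stp 11 2051 0 1 2816 8 9 2151680000 22 31 s12

/-- Search from point 10. -/
def s10 : ℕ → ℕ → Bool := stp 10 5121 0 12 274877916160 13 38 4294984704 14 32 s11

/-- Search from point 9. -/
def s9 : ℕ → ℕ → Bool := stp 9 16960 6 14 2816 8 11 34359742976 12 35 s10

/-- Search from point 8. -/
def s8 : ℕ → ℕ → Bool := stp 8 2097424 4 21 268435840 7 28 2816 9 11 s9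

/-- Search from point 7. -/
def s7 : ℕ → ℕ → Bool := stp 7 168 3 5 268435840 8 28 25165952 23 24 s8

/-- Search from point 6. -/
def s6 : ℕ → ℕ → Bool := stp 6 100 2 5 274877972544 16 38 16960 9 14 s7

/-- Search from point 5. -/
def s5 : ℕ → ℕ → Bool := stp 5 100 2 6 168 3 7 134225952 13 27 s6

/-- Search from point 4. -/
def s4 : ℕ → ℕ → Bool := stp 4 25 0 3 32788 2 15 2097424 8 21 s5

/-- Search from point 3. -/
def s3 : ℕ → ℕ → Bool := stp 3 25 0 4 196616 16 17 168 5 7 s4

/-- Search from point 2. -/
def s2 : ℕ → ℕ → Bool := stp 2 262150 1 18 32788 4 15 100 5 6 s3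

/-- Search from point 1. -/
def s1 : ℕ → ℕ → Bool := stp 1 2051 0 11 262150 2 18 8912898 19 23 s2

/-- Search from point 0. -/
def s0 : ℕ → ℕ → Bool := stp 0 25 3 4 2051 1 11 5121 10 12 s1

theorem search_ok : s0 0 5 = true := by decide +kernel

end Pool.Agent.Helper216_DC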