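import Pool.Agent.Helper216_DC.Search

/-! Soundness of the search: no fifteen of the forty lines cover the forty points. -/

namespace Pool.Agent.Helper216_DC

/-- The forty lines, each given by the bit mask of its three points. -/
def lineList : List ℕ := [25, 2051, 5121, 262150, 8912898, 32788, 100, 196616, 168, 2097424, 134225952, 274877972544, 16960, 268435840, 25165952, 2816, 34359742976, 274877916160, 4294984704, 2151680000, 1314816, 565248, 537018368, 100696064, 302055424, 34364063744, 141734182912, 17181442048, 1076887552, 23068672, 1149239296, 8640266240, 137640280064, 9261023232, 69524783104, 71940702208, 23622320128, 575525617664, 652835028992, 962072674304]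

/-- The number of points below forty not in `V`. -/
def unc (V : ℕ) : ℕ := ((Finset.range 40).filter (fun q => V.testBit q = false)).card

theorem bt_eq (V x : ℕ) : bt V x = (V.testBit x).toNat := by
  unfold bt
  rw [Nat.toNat_testBit]
  have h1 : Nat.land (Nat.shiftRight V x) 1 = (V >>> x) &&& 1 := rfl
  rw [h1, Nat.and_one_is_mod, Nat.shiftRight_eq_div_pow]

/-- `m` is the mask of the three distinct points `p, x, y`. -/
def okTriple (p m x y : ℕ) : Prop :=
  p < 40 ∧ x < 40 ∧ y < 40 ∧ p ≠ x ∧ p ≠ y ∧ x ≠ y ∧ m = (2 ^ p ||| 2 ^ x ||| 2 ^ y)

instance (p m x y : ℕ) : Decidable (okTriple p m x y) := by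
  unfold okTriple; infer_instance

theorem okTriple.testBit {p m x y : ℕ} (h : okTriple p m x y) (q : ℕ) :
    m.testBit q = true ↔ (q = p ∨ q = x ∨ q = y) := by
  obtain ⟨-, -, -, -, -, -, rfl⟩ := h
  simp only [Nat.testBit_or, Nat.testBit_two_pow, Bool.or_eq_true, decide_eq_true_eq]
  constructor
  · rintro ((h | h) | h)
    · exact Or.inl h.symm
    · exact Or.inr (Or.inl h.symm)
    · exact Or.inr (Or.inr h.symm)
  · rintro (h | h | h)
    · exact Or.inl (Or.inl h.symm)
    · exact Or.inl (Or.inr h.symm)
    · exact Or.inr h.symm

/-- `T` covers all points below forty that are not in `V`. -/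
def Cov (T : Finset ℕ) (V : ℕ) : Prop :=
  ∀ q < 40, V.testBit q = false → ∃ m ∈ T, m.testBit q = true

/-- Soundness of a search function. -/
def Good (k : ℕ → ℕ → Bool) : Prop :=
  ∀ V B, k V B = true → ∀ T : Finset ℕ, (∀ m ∈ T, m ∈ lineList) → Cov T V →
    3 * T.card ≤ unc V + B → False

theorem good_s40 : Good s40 := by
  intro V B h
  simp [s40] at h

theorem line_card : ∀ m ∈ lineList,
    ((Finset.range 40).filter (fun q => m.testBit q = true)).card ≤ 3 := by
  decide +kernel

theorem unc_le {T : Finset ℕ} {V : ℕ} (hT : ∀ m ∈ T, m ∈ lineList) (hc : Cov T V) :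
    unc V ≤ 3 * T.card := by
  unfold unc
  have hsub : (Finset.range 40).filter (fun q => V.testBit q = false) ⊆
      T.biUnion (fun m => (Finset.range 40).filter (fun q => m.testBit q = true)) := by
    intro q hq
    rw [Finset.mem_filter, Finset.mem_range] at hq
    obtain ⟨m, hm, hmq⟩ := hc q hq.1 hq.2
    rw [Finset.mem_biUnion]
    exact ⟨m, hm, Finset.mem_filter.2 ⟨Finset.mem_range.2 hq.1, hmq⟩⟩
  calc _ ≤ _ := Finset.card_le_card hsub
    _ ≤ T.card * 3 := Finset.card_biUnion_le_card_mul _ _ _ (fun m hm => line_card m (hT m hm))
    _ = 3 * T.card := Nat.mul_comm _ _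

theorem unc_or {V p m x y : ℕ} (h : okTriple p m x y) (hp : V.testBit p = false) :
    unc (Nat.lor V m) + 3 = unc V + (bt V x + bt V y) := by
  have htb := h.testBit
  obtain ⟨hp40, hx40, hy40, hpx, hpy, hxy, -⟩ := h
  have hlor : ∀ q, (Nat.lor V m).testBit q = (V.testBit q || m.testBit q) := fun q => by
    have : Nat.lor V m = V ||| m := rfl
    rw [this, Nat.testBit_or]
  set A := (Finset.range 40).filter (fun q => V.testBit q = false) with hA
  set A' := (Finset.range 40).filter (fun q => (Nat.lor V m).testBit q = false) with hA'
  have h1 : unc V = A.card := rfl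
  have h2 : unc (Nat.lor V m) = A'.card := rfl
  have h3 : A' = ((A.erase p).erase x).erase y := by
    ext q
    simp only [hA, hA', Finset.mem_filter, Finset.mem_range, Finset.mem_erase, hlor q,
      Bool.or_eq_false_iff]
    constructor
    · rintro ⟨hq, hv, hm⟩
      have : ¬ (q = p ∨ q = x ∨ q = y) := by
        rw [← htb q, hm]; simp
      push Not at this
      exact ⟨this.2.2, this.2.1, this.1, hq, hv⟩
    · rintro ⟨hqy, hqx, hqp, hq, hv⟩
      refine ⟨hq, hv, ?_⟩
      rw [← Bool.not_eq_true, htb q]
      push Not
      exact ⟨hqp, hqx, hqy⟩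
  have hpA : p ∈ A := by
    rw [hA, Finset.mem_filter, Finset.mem_range]; exact ⟨hp40, hp⟩
  have e1 : (A.erase p).card + 1 = A.card := Finset.card_erase_add_one hpA
  have e2 : ((A.erase p).erase x).card + 1 = (A.erase p).card + bt V x := by
    rw [bt_eq]
    cases hx : V.testBit x
    · have : x ∈ A.erase p := by
        rw [Finset.mem_erase, hA, Finset.mem_filter, Finset.mem_range]
        exact ⟨hpx.symm, hx40, hx⟩
      rw [Finset.card_erase_add_one this]; simp
    · have : x ∉ A.erase p := by
        rw [Finset.mem_erase, hA, Finset.mem_filter]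
        rintro ⟨-, -, h'⟩
        rw [hx] at h'; exact absurd h' (by simp)
      rw [Finset.erase_eq_of_notMem this]; simp
  have e3 : (((A.erase p).erase x).erase y).card + 1 = ((A.erase p).erase x).card + bt V y := by
    rw [bt_eq]
    cases hy : V.testBit y
    · have : y ∈ (A.erase p).erase x := by
        rw [Finset.mem_erase, Finset.mem_erase, hA, Finset.mem_filter, Finset.mem_range]
        exact ⟨hxy.symm, hpy.symm, hy40, hy⟩
      rw [Finset.card_erase_add_one this]; simp
    · have : y ∉ (A.erase p).erase x := by
        rw [Finset.mem_erase, Finset.mem_erase, hA, Finset.mem_filter]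
        rintro ⟨-, -, -, h'⟩
        rw [hy] at h'; exact absurd h' (by simp)
      rw [Finset.erase_eq_of_notMem this]; simp
  rw [h1, h2, h3]
  omega

theorem br_good {k : ℕ → ℕ → Bool} (hk : Good k) {V B p m x y : ℕ} (h : okTriple p m x y)
    (hb : br k V B m x y = true) (hp : V.testBit p = false) {T : Finset ℕ}
    (hT : ∀ m ∈ T, m ∈ lineList) (hc : Cov T V) (hcard : 3 * T.card ≤ unc V + B)
    (hm : m ∈ T) : False := by
  have hu := unc_or h hp
  have htb := h.testBit
  have hT' : ∀ m' ∈ T.erase m, m' ∈ lineList := fun m' hm' => hT m' (Finset.mem_of_mem_erase hm')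
  have hc' : Cov (T.erase m) (Nat.lor V m) := by
    intro q hq hv
    have : Nat.lor V m = V ||| m := rfl
    rw [this, Nat.testBit_or, Bool.or_eq_false_iff] at hv
    obtain ⟨m', hm', hmq⟩ := hc q hq hv.1
    refine ⟨m', Finset.mem_erase.2 ⟨?_, hm'⟩, hmq⟩
    rintro rfl
    rw [hv.2] at hmq; exact absurd hmq (by simp)
  have hce : (T.erase m).card + 1 = T.card := Finset.card_erase_add_one hm
  have hul := unc_le hT' hc'
  unfold br at hb
  by_cases hle : Nat.ble (Nat.add (bt V x) (bt V y)) B = true
  · rw [hle] at hb
    have hb' : k (Nat.lor V m) (Nat.sub B (Nat.add (bt V x) (bt V y))) = true := hb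
    refine hk _ _ hb' (T.erase m) hT' hc' ?_
    have h1 : Nat.add (bt V x) (bt V y) = bt V x + bt V y := rfl
    have h2 : Nat.sub B (Nat.add (bt V x) (bt V y)) = B - (bt V x + bt V y) := rfl
    have h3 : bt V x + bt V y ≤ B := Nat.le_of_ble_eq_true hle
    rw [h2]
    omega
  · have h3 : ¬ (bt V x + bt V y ≤ B) := fun h' => hle (Nat.ble_eq_true_of_le h')
    omega

theorem stp_good {p m1 x1 y1 m2 x2 y2 m3 x3 y3 : ℕ} {k : ℕ → ℕ → Bool} (hk : Good k)
    (h1 : okTriple p m1 x1 y1) (h2 : okTriple p m2 x2 y2) (h3 : okTriple p m3 x3 y3)
    (hall : ∀ m ∈ lineList, m.testBit p = true → m = m1 ∨ m = m2 ∨ m = m3) :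
    Good (stp p m1 x1 y1 m2 x2 y2 m3 x3 y3 k) := by
  intro V B hs T hT hc hcard
  unfold stp at hs
  by_cases hb : Nat.beq (bt V p) 1 = true
  · rw [hb] at hs
    exact hk V B hs T hT hc hcard
  · have hp : V.testBit p = false := by
      cases hv : V.testBit p
      · rfl
      · exfalso; apply hb; rw [bt_eq, hv]; rfl
    have hb' : Nat.beq (bt V p) 1 = false := by
      cases h : Nat.beq (bt V p) 1
      · rfl
      · exact absurd h hb
    rw [hb'] at hs
    change cond (br k V B m1 x1 y1) (cond (br k V B m2 x2 y2) (br k V B m3 x3 y3) false) false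
      = true at hs
    have hs1 : br k V B m1 x1 y1 = true := by
      cases h : br k V B m1 x1 y1
      · rw [h] at hs; simp at hs
      · rfl
    rw [hs1] at hs
    change cond (br k V B m2 x2 y2) (br k V B m3 x3 y3) false = true at hs
    have hs2 : br k V B m2 x2 y2 = true := by
      cases h : br k V B m2 x2 y2
      · rw [h] at hs; simp at hs
      · rfl
    rw [hs2] at hs
    change br k V B m3 x3 y3 = true at hs
    obtain ⟨m, hm, hmp⟩ := hc p h1.1 hp
    rcases hall m (hT m hm) hmp with rfl | rfl | rfl
    · exact br_good hk h1 hs1 hp hT hc hcard hm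
    · exact br_good hk h2 hs2 hp hT hc hcard hm
    · exact br_good hk h3 hs hp hT hc hcard hm

theorem good_s39 : Good s39 :=
  stp_good good_s40 (by decide +kernel) (by decide +kernel) (by decide +kernel) (by decide +kernel)

theorem good_s38 : Good s38 :=
  stp_good good_s39 (by decide +kernel) (by decide +kernel) (by decide +kernel) (by decide +kernel)

theorem good_s37 : Good s37 :=
  stp_good good_s38 (by decide +kernel) (by decide +kernel) (by decide +kernel) (by decide +kernel)

theorem good_s36 : Good s36 :=
  stp_good good_s37 (by decide +kernel) (by decide +kernel) (by decide +kernel) (by decide +kernel)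

theorem good_s35 : Good s35 :=
  stp_good good_s36 (by decide +kernel) (by decide +kernel) (by decide +kernel) (by decide +kernel)

theorem good_s34 : Good s34 :=
  stp_good good_s35 (by decide +kernel) (by decide +kernel) (by decide +kernel) (by decide +kernel)

theorem good_s33 : Good s33 :=
  stp_good good_s34 (by decide +kernel) (by decide +kernel) (by decide +kernel) (by decide +kernel)

theorem good_s32 : Good s32 :=
  stp_good good_s33 (by decide +kernel) (by decide +kernel) (by decide +kernel) (by decide +kernel)

theorem good_s31 : Good s31 :=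
  stp_good good_s32 (by decide +kernel) (by decide +kernel) (by decide +kernel) (by decide +kernel)

theorem good_s30 : Good s30 :=
  stp_good good_s31 (by decide +kernel) (by decide +kernel) (by decide +kernel) (by decide +kernel)

theorem good_s29 : Good s29 :=
  stp_good good_s30 (by decide +kernel) (by decide +kernel) (by decide +kernel) (by decide +kernel)

theorem good_s28 : Good s28 :=
  stp_good good_s29 (by decide +kernel) (by decide +kernel) (by decide +kernel) (by decide +kernel)

theorem good_s27 : Good s27 :=
  stp_good good_s28 (by decide +kernel) (by decide +kernel) (by decide +kernel) (by decide +kernel)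

theorem good_s26 : Good s26 :=
  stp_good good_s27 (by decide +kernel) (by decide +kernel) (by decide +kernel) (by decide +kernel)

theorem good_s25 : Good s25 :=
  stp_good good_s26 (by decide +kernel) (by decide +kernel) (by decide +kernel) (by decide +kernel)

theorem good_s24 : Good s24 :=
  stp_good good_s25 (by decide +kernel) (by decide +kernel) (by decide +kernel) (by decide +kernel)

theorem good_s23 : Good s23 :=
  stp_good good_s24 (by decide +kernel) (by decide +kernel) (by decide +kernel) (by decide +kernel)

theorem good_s22 : Good s22 :=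
  stp_good good_s23 (by decide +kernel) (by decide +kernel) (by decide +kernel) (by decide +kernel)

theorem good_s21 : Good s21 :=
  stp_good good_s22 (by decide +kernel) (by decide +kernel) (by decide +kernel) (by decide +kernel)

theorem good_s20 : Good s20 :=
  stp_good good_s21 (by decide +kernel) (by decide +kernel) (by decide +kernel) (by decide +kernel)

theorem good_s19 : Good s19 :=
  stp_good good_s20 (by decide +kernel) (by decide +kernel) (by decide +kernel) (by decide +kernel)

theorem good_s18 : Good s18 :=
  stp_good good_s19 (by decide +kernel) (by decide +kernel) (by decide +kernel) (by decide +kernel)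

theorem good_s17 : Good s17 :=
  stp_good good_s18 (by decide +kernel) (by decide +kernel) (by decide +kernel) (by decide +kernel)

theorem good_s16 : Good s16 :=
  stp_good good_s17 (by decide +kernel) (by decide +kernel) (by decide +kernel) (by decide +kernel)

theorem good_s15 : Good s15 :=
  stp_good good_s16 (by decide +kernel) (by decide +kernel) (by decide +kernel) (by decide +kernel)

theorem good_s14 : Good s14 :=
  stp_good good_s15 (by decide +kernel) (by decide +kernel) (by decide +kernel) (by decide +kernel)

theorem good_s13 : Good s13 :=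
  stp_good good_s14 (by decide +kernel) (by decide +kernel) (by decide +kernel) (by decide +kernel)

theorem good_s12 : Good s12 :=
  stp_good good_s13 (by decide +kernel) (by decide +kernel) (by decide +kernel) (by decide +kernel)

theorem good_s11 : Good s11 :=
  stp_good good_s12 (by decide +kernel) (by decide +kernel) (by decide +kernel) (by decide +kernel)

theorem good_s10 : Good s10 :=
  stp_good good_s11 (by decide +kernel) (by decide +kernel) (by decide +kernel) (by decide +kernel)

theorem good_s9 : Good s9 :=
  stp_good good_s10 (by decide +kernel) (by decide +kernel) (by decide +kernel) (by decide +kernel)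

theorem good_s8 : Good s8 :=
  stp_good good_s9 (by decide +kernel) (by decide +kernel) (by decide +kernel) (by decide +kernel)

theorem good_s7 : Good s7 :=
  stp_good good_s8 (by decide +kernel) (by decide +kernel) (by decide +kernel) (by decide +kernel)

theorem good_s6 : Good s6 :=
  stp_good good_s7 (by decide +kernel) (by decide +kernel) (by decide +kernel) (by decide +kernel)

theorem good_s5 : Good s5 :=
  stp_good good_s6 (by decide +kernel) (by decide +kernel) (by decide +kernel) (by decide +kernel)

theorem good_s4 : Good s4 :=
  stp_good good_s5 (by decide +kernel) (by decide +kernel) (by decide +kernel) (by decide +kernel)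

theorem good_s3 : Good s3 :=
  stp_good good_s4 (by decide +kernel) (by decide +kernel) (by decide +kernel) (by decide +kernel)

theorem good_s2 : Good s2 :=
  stp_good good_s3 (by decide +kernel) (by decide +kernel) (by decide +kernel) (by decide +kernel)

theorem good_s1 : Good s1 :=
  stp_good good_s2 (by decide +kernel) (by decide +kernel) (by decide +kernel) (by decide +kernel)

theorem good_s0 : Good s0 :=
  stp_good good_s1 (by decide +kernel) (by decide +kernel) (by decide +kernel) (by decide +kernel)

/-- No fifteen lines cover all forty points. -/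
theorem no_cover (T : Finset ℕ) (hT : ∀ m ∈ T, m ∈ lineList) (hc : T.card ≤ 15) :
    ∃ q < 40, ∀ m ∈ T, m.testBit q = false := by
  by_contra hcon
  push Not at hcon
  have h40 : unc 0 = 40 := by
    unfold unc
    simp
  refine good_s0 0 5 search_ok T hT ?_ ?_
  · intro q hq _
    obtain ⟨m, hm, h⟩ := hcon q hq
    exact ⟨m, hm, by simpa using h⟩
  · rw [h40]; omega

end Pool.Agent.Helper216_DC
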