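import Pool.Agent.Helper216_DC.Graph

/-! The same graph and two disjoint subgraphs of chromatic numbers at least 2 and 15. -/

namespace Pool.Agent.Helper216_DC

theorem G_cliqueFree : G.CliqueFree 16 := by
  classical
  intro s hs
  obtain ⟨x, hx⟩ : ∃ x : Fin 40, x ∉ s := by
    by_contra hcon
    push Not at hcon
    have : s = Finset.univ := Finset.eq_univ_iff_forall.2 hcon
    have h1 := hs.card_eq
    rw [this] at h1
    simp at h1
  obtain ⟨z, hxz⟩ : ∃ z : Fin 40, G.Adj x z := by
    have hall : ∀ p : Fin 40, ∃ r : Fin 40, G.Adj p r := by decide +kernel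
    exact hall x
  have hcol : (G.induce ({x, z}ᶜ : Set (Fin 40))).Colorable 14 := pair_colorable hxz _ (by
    intro p hp
    simp only [Set.mem_compl_iff, Set.mem_insert_iff, Set.mem_singleton_iff, not_or] at hp
    exact hp)
  have hcard : 15 ≤ (s.erase z).card := by
    have := Finset.pred_card_le_card_erase (s := s) (a := z)
    rw [hs.card_eq] at this
    omega
  have hmem : ∀ v ∈ s.erase z, v ∈ ({x, z}ᶜ : Set (Fin 40)) := by
    intro v hv
    rw [Finset.mem_erase] at hv
    simp only [Set.mem_compl_iff, Set.mem_insert_iff, Set.mem_singleton_iff, not_or]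
    exact ⟨fun e => hx (e ▸ hv.2), hv.1⟩
  have hle := hcol.card_le_of_pairwise_adj (ι := (s.erase z : Finset (Fin 40)))
    (fun v => ⟨v.val, hmem v.val v.property⟩) (by
      intro v w hvw
      have hv := Finset.mem_of_mem_erase v.property
      have hw := Finset.mem_of_mem_erase w.property
      exact hs.isClique hv hw (fun e => hvw (Subtype.ext e)))
  rw [Nat.card_eq_fintype_card, Fintype.card_coe] at hle
  omega

theorem tihany_fails : ¬ ∃ S T : Set (Fin 40), Disjoint S T ∧
    ((2 : ℕ) : ℕ∞) ≤ (G.induce S).chromaticNumber ∧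
    ((15 : ℕ) : ℕ∞) ≤ (G.induce T).chromaticNumber := by
  rintro ⟨S, T, hdis, hS, hT⟩
  have hedge : ∃ x ∈ S, ∃ z ∈ S, G.Adj x z := by
    by_contra hcon
    push Not at hcon
    have h1 : (G.induce S).Colorable 1 := by
      rw [SimpleGraph.colorable_one_iff, SimpleGraph.eq_bot_iff_forall_not_adj]
      intro a b hab
      exact hcon a.val a.property b.val b.property hab
    have h2 := hS.trans h1.chromaticNumber_le
    have h3 : (2 : ℕ) ≤ 1 := by exact_mod_cast h2
    omega
  obtain ⟨x, hx, z, hz, hxz⟩ := hedge
  have hcol : (G.induce T).Colorable 14 := pair_colorable hxz T (by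
    intro p hp
    constructor
    · rintro rfl
      exact Set.disjoint_left.1 hdis hx hp
    · rintro rfl
      exact Set.disjoint_left.1 hdis hz hp)
  have h2 := hT.trans hcol.chromaticNumber_le
  have h3 : (15 : ℕ) ≤ 14 := by exact_mod_cast h2
  omega

end Pool.Agent.Helper216_DC
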