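import Pool.Agent.Helper216_DC.Tihany

/-! Exact form: no two disjoint subsets with chromatic numbers exactly 2 and 15. -/

namespace Pool.Agent.Helper216_DC

theorem tihany_fails_eq : ¬ ∃ S T : Set (Fin 40), Disjoint S T ∧
    (G.induce S).chromaticNumber = ((2 : ℕ) : ℕ∞) ∧
    (G.induce T).chromaticNumber = ((15 : ℕ) : ℕ∞) := by
  rintro ⟨S, T, hd, hS, hT⟩
  exact tihany_fails ⟨S, T, hd, hS.ge, hT.ge⟩

end Pool.Agent.Helper216_DC
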